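import Pool.Agent.R685.LieSup3

set_option autoImplicit false

/-!
# A solvable variety of Malcev algebras of infinite basic superrank

Over every field of characteristic `0` the variety of all Lie algebras `L` with
`((L L) L) ((L L) L) = 0` is a subvariety of the variety of Malcev algebras, it is solvable of
index three, and it is not generated by the Grassmann envelope of any finitely generated
superalgebra.  The last statement is proved in the library `Pool.Agent.R685.LieSup3`.
-/

namespace Pool.Agent.Results.MP_af1090_al.SolvableMalcev

open Pool.Agent.H163R3 Pool.Agent.R685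

universe u

/-- the defining identities of Malcev algebras: `x² = 0` and `J(x, y, z) x = J(x, y, x z)`, where
`J(x, y, z) = (x y) z + (y z) x + (z x) y` -/
def Malc (F : Type u) [Field F] : Set (Fr F) :=
  {X F 0 * X F 0,
    ((X F 0 * X F 1) * X F 2 + (X F 1 * X F 2) * X F 0 + (X F 2 * X F 0) * X F 1) * X F 0
      - ((X F 0 * X F 1) * (X F 0 * X F 2) + (X F 1 * (X F 0 * X F 2)) * X F 0
        + ((X F 0 * X F 2) * X F 0) * X F 1)}

/-- the words `s k` in the variables `i, i + 1, …, i + 2 ^ k - 1`: `s 0 i` is the variable `i`, and
`s (k + 1) i` is the product of two copies of `s k` in disjoint variables. A variety is solvable of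
index `k` if it satisfies `s k 0 = 0`. -/
noncomputable def s (F : Type u) [Field F] : ℕ → ℕ → Fr F
  | 0, i => X F i
  | k + 1, i => s F k i * s F k (i + 2 ^ k)

theorem sq_zero {F : Type u} [Field F] {B : Type u} [NonUnitalNonAssocRing B] [Module F B]
    [IsScalarTower F B B] [SMulCommClass F B B] (h : InVar F (V1 F) B) (x : B) : x * x = 0 := by
  have := h _ (show X F 0 * X F 0 ∈ V1 F by unfold V1; simp)
    (FreeNonUnitalNonAssocAlgebra.lift F fun _ => x)
  simpa [X] using this

theorem anti {F : Type u} [Field F] {B : Type u} [NonUnitalNonAssocRing B] [Module F B]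
    [IsScalarTower F B B] [SMulCommClass F B B] (h : InVar F (V1 F) B) (x y : B) :
    x * y = - (y * x) := by
  have h1 := sq_zero h (x + y)
  rw [add_mul, mul_add, mul_add, sq_zero h, sq_zero h, zero_add, add_zero] at h1
  exact eq_neg_of_add_eq_zero_left h1

theorem jac {F : Type u} [Field F] {B : Type u} [NonUnitalNonAssocRing B] [Module F B]
    [IsScalarTower F B B] [SMulCommClass F B B] (h : InVar F (V1 F) B) (x y z : B) :
    (x * y) * z + (y * z) * x + (z * x) * y = 0 := by
  have := h _ (show (X F 0 * X F 1) * X F 2 + (X F 1 * X F 2) * X F 0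
    + (X F 2 * X F 0) * X F 1 ∈ V1 F by unfold V1; simp)
    (FreeNonUnitalNonAssocAlgebra.lift F fun i => if i = 0 then x else if i = 1 then y else z)
  simpa [X] using this

theorem six {F : Type u} [Field F] {B : Type u} [NonUnitalNonAssocRing B] [Module F B]
    [IsScalarTower F B B] [SMulCommClass F B B] (h : InVar F (V1 F) B) (a b c a' b' c' : B) :
    ((a * b) * c) * ((a' * b') * c') = 0 := by
  have := h _ (show ((X F 0 * X F 1) * X F 2) * ((X F 3 * X F 4) * X F 5) ∈ V1 F by
    unfold V1; simp)
    (FreeNonUnitalNonAssocAlgebra.lift F fun i => if i = 0 then a else if i = 1 then b else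
      if i = 2 then c else if i = 3 then a' else if i = 4 then b' else c')
  simpa [X] using this

theorem malc_of_V1 (F : Type u) [Field F] (B : Type u) [NonUnitalNonAssocRing B] [Module F B]
    [IsScalarTower F B B] [SMulCommClass F B B] (h : InVar F (V1 F) B) :
    InVar F (Malc F) B := by
  intro f hf φ
  rcases hf with hf | hf
  · rw [hf, map_mul]; exact sq_zero h _
  · rw [Set.mem_singleton_iff] at hf
    rw [hf]
    simp only [map_sub, map_add, map_mul]
    rw [jac h, jac h, zero_mul, sub_zero]

/-- `(a b) (c d) = ((a b) c) d - ((a b) d) c` -/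
theorem four {F : Type u} [Field F] {B : Type u} [NonUnitalNonAssocRing B] [Module F B]
    [IsScalarTower F B B] [SMulCommClass F B B] (h : InVar F (V1 F) B) (a b c d : B) :
    (a * b) * (c * d) = ((a * b) * c) * d - ((a * b) * d) * c := by
  have h1 := jac h (a * b) c d
  rw [anti h (c * d) (a * b), anti h d (a * b), neg_mul] at h1
  have h2 : (a * b) * (c * d) = ((a * b) * c) * d + -(((a * b) * d) * c) := by
    have : (a * b * c) * d + -((a * b) * (c * d)) + -((a * b * d) * c) = 0 := h1
    calc (a * b) * (c * d) = (a * b) * (c * d) + 0 := (add_zero _).symm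
      _ = (a * b) * (c * d) + ((a * b * c) * d + -((a * b) * (c * d)) + -((a * b * d) * c)) := by
        rw [this]
      _ = _ := by abel
  rw [h2, sub_eq_add_neg]

theorem solv (F : Type u) [Field F] (B : Type u) [NonUnitalNonAssocRing B] [Module F B]
    [IsScalarTower F B B] [SMulCommClass F B B] (h : InVar F (V1 F) B) :
    Sat F B (s F 3 0) := by
  have key : ∀ a b c d a' b' c' d' : B,
      ((a * b) * (c * d)) * ((a' * b') * (c' * d')) = 0 := by
    intro a b c d a' b' c' d'
    rw [four h a b c d, four h a' b' c' d', sub_mul, mul_sub, mul_sub, six h, six h, six h, six h]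
    simp
  intro φ
  simp only [s, map_mul]
  exact key _ _ _ _ _ _ _ _

/-- **Answer to Q1 (no).** Let `F` be a field of characteristic `0`. The variety `V1 F` of all
`F`-algebras with the identities `x x = 0`, `(x y) z + (y z) x + (z x) y = 0`,
`((x y) z) ((t u) v) = 0` consists of Malcev algebras and is solvable of index three, and it is not
generated by the Grassmann envelope of any finitely generated superalgebra, so that its basic
superrank is infinite. (The Grassmann algebra exists, so the last statement is not void; the
number `m` is the least length of the words which span the Grassmann algebra used for the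
envelope: `m = 0` with the unit, `m = 1` without it.) -/
theorem result (F : Type u) [Field F] [CharZero F] :
    (∀ (B : Type u) [NonUnitalNonAssocRing B] [Module F B] [IsScalarTower F B B]
      [SMulCommClass F B B], InVar F (V1 F) B → InVar F (Malc F) B ∧ Sat F B (s F 3 0)) ∧
    (∃ (G : Type u) (_ : Ring G) (_ : Algebra F G) (e : ℕ → G), IsGrassmann F e) ∧
    ∀ (G : Type u) [Ring G] [Algebra F G] (e : ℕ → G), IsGrassmann F e →
      ∀ m : ℕ, ¬ FinSuperrank F e m (V1 F) :=
  ⟨fun B _ _ _ _ h => ⟨malc_of_V1 F B h, solv F B h⟩, exists_grassmann F,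
    fun _ _ _ _ he m => not_finSuperrank he m⟩

end Pool.Agent.Results.MP_af1090_al.SolvableMalcev
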